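import Mathlib

/-!
# Cyclic stable subgroups on quotients of products of modules with few torsion elements

`G` acts on abelian groups `M i`, and a quotient of a product of powers of the `M i` has an element `P` of order `N`
with `g P = χ(g) P`. The chain of the left ideals of `ℤ[G]` of the elements that kill the first `k` generators of the
torsion of the `M i` yields such elements on quotients of the `M i`, with the reductions of `χ`, such that `N` is the
product of their orders.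
-/

set_option autoImplicit false

namespace Pool.Agent.Helper91.DF

section act
variable {G : Type} [Group G] {M : Type} [AddCommGroup M] [DistribMulAction G M]

/-- the action of the group ring -/
noncomputable def act (M : Type) [AddCommGroup M] [DistribMulAction G M] :
    MonoidAlgebra ℤ G →ₐ[ℤ] AddMonoid.End M :=
  MonoidAlgebra.lift ℤ (AddMonoid.End M) G (DistribMulAction.toAddMonoidEnd G M)

/-- the character of the group ring given by `χ` -/
noncomputable def eps {N : ℕ} (χ : G →* ZMod N) : MonoidAlgebra ℤ G →ₐ[ℤ] ZMod N :=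
  MonoidAlgebra.lift ℤ (ZMod N) G χ

lemma act_of (g : G) (x : M) : act M (MonoidAlgebra.of ℤ G g) x = g • x := by
  unfold act
  rw [MonoidAlgebra.lift_of]
  rfl

lemma eps_of {N : ℕ} (χ : G →* ZMod N) (g : G) : eps χ (MonoidAlgebra.of ℤ G g) = χ g := by
  unfold eps
  rw [MonoidAlgebra.lift_of]

lemma act_add (r s : MonoidAlgebra ℤ G) (x : M) : act M (r + s) x = act M r x + act M s x := by
  rw [map_add]; rfl

lemma act_sub (r s : MonoidAlgebra ℤ G) (x : M) : act M (r - s) x = act M r x - act M s x := by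
  rw [map_sub]; rfl

lemma act_mul (r s : MonoidAlgebra ℤ G) (x : M) : act M (r * s) x = act M r (act M s x) := by
  rw [map_mul]; rfl

lemma act_smul (n : ℤ) (r : MonoidAlgebra ℤ G) (x : M) : act M (n • r) x = n • act M r x := by
  rw [map_smul]; rfl

lemma act_one (x : M) : act M (1 : MonoidAlgebra ℤ G) x = x := by
  rw [map_one]; rfl

lemma act_map {M' : Type} [AddCommGroup M'] [DistribMulAction G M'] (f : M →+ M')
    (hf : ∀ (g : G) (x : M), f (g • x) = g • f x) (r : MonoidAlgebra ℤ G) (x : M) :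
    f (act M r x) = act M' r (f x) := by
  induction r using MonoidAlgebra.induction_on with
  | of g => rw [act_of, act_of, hf]
  | add r s hr hs => rw [act_add, act_add, map_add, hr, hs]
  | smul n r hr => rw [act_smul, act_smul, map_zsmul, hr]

lemma act_char {N : ℕ} {χ : G →* ZMod N} {P : M} (hN : N • P = 0)
    (hP : ∀ (g : G) (m : ℤ), (m : ZMod N) = χ g → g • P = m • P) (r : MonoidAlgebra ℤ G) :
    ∀ m : ℤ, eps χ r = m → act M r P = m • P := by
  have h0 : ∀ a b : ℤ, (a : ZMod N) = b → a • P = b • P := by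
    intro a b hab
    obtain ⟨k, hk⟩ := (ZMod.intCast_eq_intCast_iff_dvd_sub a b N).1 hab
    have h1 : b = a + N * k := by linarith
    rw [h1, add_smul, mul_comm, mul_smul, natCast_zsmul, hN, smul_zero, add_zero]
  have key : ∃ m : ℤ, eps χ r = m ∧ act M r P = m • P := by
    induction r using MonoidAlgebra.induction_on with
    | of g =>
      obtain ⟨m, hm⟩ := ZMod.intCast_surjective (χ g)
      exact ⟨m, by rw [eps_of, hm], by rw [act_of, hP g m hm]⟩
    | add r s hr hs =>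
      obtain ⟨a, ha, ha'⟩ := hr
      obtain ⟨b, hb, hb'⟩ := hs
      exact ⟨a + b, by rw [map_add, ha, hb]; push_cast; rfl, by rw [act_add, ha', hb', add_smul]⟩
    | smul n r hr =>
      obtain ⟨a, ha, ha'⟩ := hr
      exact ⟨n * a, by rw [map_smul, ha, zsmul_eq_mul]; push_cast; rfl, by rw [act_smul, ha', mul_smul]⟩
  obtain ⟨a, ha, ha'⟩ := key
  intro m hm
  rw [ha']
  exact h0 _ _ (ha.symm.trans hm)

end act

section chain
variable {G : Type} [Group G] {ι : Type} {M : ι → Type} [∀ i, AddCommGroup (M i)]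
  [∀ i, DistribMulAction G (M i)] {J : Type} (i : J → ι) (t : ∀ j, M (i j)) {N : ℕ} (χ : G →* ZMod N)

/-- the elements of the group ring that kill the `t j`, `j ∈ s` -/
def kill (G : Type) [Group G] [∀ i, DistribMulAction G (M i)] (s : Finset J) :
    AddSubgroup (MonoidAlgebra ℤ G) where
  carrier := {y | ∀ j ∈ s, act (M (i j)) y (t j) = 0}
  zero_mem' := by
    intro j _
    rw [map_zero]; rfl
  add_mem' := by
    intro a b ha hb j hj
    rw [act_add, ha j hj, hb j hj, add_zero]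
  neg_mem' := by
    intro a ha j hj
    have h := act_smul (M := M (i j)) (-1) a (t j)
    rw [neg_one_smul, ha j hj, smul_zero] at h
    exact h

lemma kill_mul {s : Finset J} (r : MonoidAlgebra ℤ G) {y : MonoidAlgebra ℤ G} (hy : y ∈ kill i t G s) :
    r * y ∈ kill i t G s := by
  intro j hj
  rw [act_mul, hy j hj, map_zero]

/-- the values of the character at the elements that kill the `t j`, `j ∈ s`, are the multiples of `b` -/
def Gen (s : Finset J) (b : ℕ) : Prop :=
  ∀ n : ℤ, (∃ y ∈ kill i t G s, eps χ y = (n : ZMod N)) ↔ (b : ℤ) ∣ n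

lemma gen (hN : 0 < N) (s : Finset J) : ∃ b : ℕ, 0 < b ∧ Gen i t χ s b := by
  obtain ⟨a, ha⟩ := Int.subgroup_cyclic (((kill i t G s).map (eps χ).toAddMonoidHom).comap
    (Int.castAddHom (ZMod N)))
  have key : ∀ n : ℤ, (∃ y ∈ kill i t G s, eps χ y = (n : ZMod N)) ↔ a ∣ n := by
    intro n
    have h1 : (∃ y ∈ kill i t G s, eps χ y = (n : ZMod N)) ↔
        n ∈ ((kill i t G s).map (eps χ).toAddMonoidHom).comap (Int.castAddHom (ZMod N)) := by
      rw [AddSubgroup.mem_comap, AddSubgroup.mem_map]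
      rfl
    rw [h1, ha, ← AddSubgroup.zmultiples_eq_closure, Int.mem_zmultiples_iff]
  have h0 : a ≠ 0 := by
    rintro rfl
    have := (key N).1 ⟨0, (kill i t G s).zero_mem, by rw [map_zero]; simp⟩
    rw [zero_dvd_iff] at this
    omega
  refine ⟨a.natAbs, Int.natAbs_pos.2 h0, fun n => ?_⟩
  rw [key n, Int.natCast_natAbs, abs_dvd]

/-- the data of a point of order `c` modulo `Ψ` on which `G` acts by `χ` -/
def IsPoint {M : Type} [AddCommGroup M] [DistribMulAction G M] (Ψ : AddSubgroup M) (q : M) (c : ℕ) : Prop :=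
  (∀ g : G, ∀ z ∈ Ψ, g • z ∈ Ψ) ∧ (∀ (g : G) (m : ℤ), (m : ZMod N) = χ g → g • q - m • q ∈ Ψ) ∧
    ∀ n : ℤ, n • q ∈ Ψ ↔ (c : ℤ) ∣ n

lemma step {L : ℕ} (ht : ∀ j, L • t j = 0) (s : Finset J) [DecidableEq J] (j₀ : J) {b b' : ℕ}
    (hb0 : 0 < b) (hb0' : 0 < b') (hb : Gen i t χ s b) (hb' : Gen i t χ (insert j₀ s) b') :
    ∃ (Ψ : AddSubgroup (M (i j₀))) (q : M (i j₀)) (c : ℕ), 0 < c ∧ (∀ z ∈ Ψ, L • z = 0) ∧
      IsPoint χ Ψ q c ∧ b' = b * c := by
  obtain ⟨y', hy', hay'⟩ := (hb' b').2 dvd_rfl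
  have hle : ∀ y ∈ kill i t G (insert j₀ s), y ∈ kill i t G s := fun y hy j hj =>
    hy j (Finset.mem_insert_of_mem hj)
  obtain ⟨c, hc⟩ : b ∣ b' := by
    have := (hb b').1 ⟨y', hle y' hy', hay'⟩
    exact_mod_cast this
  have hc0 : 0 < c := by
    rcases Nat.eq_zero_or_pos c with h | h
    · rw [h, mul_zero] at hc; omega
    · exact h
  obtain ⟨y₀, hy₀, hay₀⟩ := (hb b).2 dvd_rfl
  let Ψ : AddSubgroup (M (i j₀)) :=
    { carrier := {z | ∃ y ∈ kill i t G s, ∃ m : ℤ, (b' : ℤ) ∣ m ∧ eps χ y = m ∧ act (M (i j₀)) y (t j₀) = z}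
      zero_mem' := ⟨0, (kill i t G s).zero_mem, 0, dvd_zero _, by rw [map_zero]; simp, by rw [map_zero]; rfl⟩
      add_mem' := by
        rintro _ _ ⟨y, h1, m, h2, h2', rfl⟩ ⟨z, h3, n, h4, h4', rfl⟩
        exact ⟨y + z, (kill i t G s).add_mem h1 h3, m + n, dvd_add h2 h4,
          by rw [map_add, h2', h4']; push_cast; rfl, act_add _ _ _⟩
      neg_mem' := by
        rintro _ ⟨y, h1, m, h2, h2', rfl⟩
        refine ⟨-y, (kill i t G s).neg_mem h1, -m, (dvd_neg).2 h2, by rw [map_neg, h2']; push_cast; rfl, ?_⟩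
        have h := act_smul (M := M (i j₀)) (-1) y (t j₀)
        rw [neg_one_smul, neg_one_smul] at h
        exact h }
  have hmem : ∀ z, z ∈ Ψ ↔ ∃ y ∈ kill i t G s, ∃ m : ℤ, (b' : ℤ) ∣ m ∧ eps χ y = m ∧
    act (M (i j₀)) y (t j₀) = z := fun _ => Iff.rfl
  refine ⟨Ψ, act _ y₀ (t j₀), c, hc0, ?_, ⟨?_, ?_, ?_⟩, hc⟩
  · rintro z hz
    obtain ⟨y, -, m, -, -, rfl⟩ := (hmem z).1 hz
    rw [← map_nsmul, ht, map_zero]
  · intro g z hz
    obtain ⟨y, h1, m, h2, h2', rfl⟩ := (hmem z).1 hz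
    obtain ⟨u, hu⟩ := ZMod.intCast_surjective (χ g)
    refine (hmem _).2 ⟨MonoidAlgebra.of ℤ G g * y, kill_mul i t _ h1, u * m, Dvd.dvd.mul_left h2 u, ?_, ?_⟩
    · rw [map_mul, eps_of, h2', ← hu]; push_cast; rfl
    · rw [act_mul, act_of]
  · intro g m hm
    refine (hmem _).2 ⟨MonoidAlgebra.of ℤ G g * y₀ - m • y₀,
      (kill i t G s).sub_mem (kill_mul i t _ hy₀) ((kill i t G s).zsmul_mem hy₀ m), 0, dvd_zero _, ?_, ?_⟩
    · rw [map_sub, map_mul, map_zsmul, eps_of, ← hm, zsmul_eq_mul, sub_self]; simp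
    · rw [act_sub, act_mul, act_of, act_smul]
  · intro n
    rw [hmem]
    constructor
    · rintro ⟨y, h1, m, h2, h2', h3⟩
      have h4 : n • y₀ - y ∈ kill i t G (insert j₀ s) := by
        intro j hj
        rcases Finset.mem_insert.1 hj with rfl | hj
        · rw [act_sub, act_smul, h3, sub_self]
        · exact ((kill i t G s).sub_mem ((kill i t G s).zsmul_mem hy₀ n) h1) j hj
      have h5 := (hb' (n * b - m)).1 ⟨_, h4, by rw [map_sub, map_zsmul, hay₀, h2', zsmul_eq_mul]; push_cast; rfl⟩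
      have h6 : (b' : ℤ) ∣ n * (b : ℤ) := (dvd_sub_left h2).1 h5
      rw [hc, mul_comm n, Nat.cast_mul] at h6
      exact (mul_dvd_mul_iff_left (by exact_mod_cast hb0.ne')).1 h6
    · rintro ⟨k, rfl⟩
      refine ⟨((c : ℤ) * k) • y₀, (kill i t G s).zsmul_mem hy₀ _, (c * k) * b, ?_, ?_, act_smul _ _ _⟩
      · rw [hc]
        exact ⟨k, by push_cast; ring⟩
      · rw [map_zsmul, hay₀, zsmul_eq_mul]
        push_cast
        rfl

/-- the chain -/
theorem chain (hN : 0 < N) {L : ℕ} (ht : ∀ j, L • t j = 0) (s : Finset J) [DecidableEq J] :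
    ∃ (Ψ : ∀ j, AddSubgroup (M (i j))) (q : ∀ j, M (i j)) (c : J → ℕ),
      (∀ j, 0 < c j ∧ (∀ z ∈ Ψ j, L • z = 0) ∧ IsPoint χ (Ψ j) (q j) (c j)) ∧ Gen i t χ s (∏ j ∈ s, c j) := by
  induction s using Finset.induction_on with
  | empty =>
    refine ⟨fun _ => ⊥, fun _ => 0, fun _ => 1, fun j => ⟨one_pos, ?_, ?_, ?_, ?_⟩, ?_⟩
    · rintro z hz
      rw [AddSubgroup.mem_bot.1 hz, smul_zero]
    · rintro g z hz
      rw [AddSubgroup.mem_bot.1 hz, smul_zero]
      exact AddSubgroup.zero_mem _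
    · intro g m _
      rw [smul_zero, smul_zero, sub_zero]
      exact AddSubgroup.zero_mem _
    · intro n
      simp
    · intro n
      simp only [Finset.prod_empty, Nat.cast_one, one_dvd, iff_true]
      exact ⟨n • 1, fun j hj => absurd hj (Finset.notMem_empty j), by rw [map_zsmul, map_one]; simp⟩
  | insert j₀ s hj ih =>
    obtain ⟨Ψ, q, c, h1, h2⟩ := ih
    obtain ⟨b', hb0', hb'⟩ := gen i t χ hN (insert j₀ s)
    have hb0 : 0 < ∏ j ∈ s, c j := Finset.prod_pos fun j _ => (h1 j).1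
    obtain ⟨Ψ₀, q₀, c₀, h3, h4, h5, h8⟩ := step i t χ ht s j₀ hb0 hb0' h2 hb'
    refine ⟨Function.update Ψ j₀ Ψ₀, Function.update q j₀ q₀, Function.update c j₀ c₀, fun j => ?_, ?_⟩
    · rcases eq_or_ne j j₀ with rfl | hne
      · simp only [Function.update_self]
        exact ⟨h3, h4, h5⟩
      · simp only [Function.update_of_ne hne]
        exact h1 j
    · rw [Finset.prod_insert hj, Function.update_self]
      have e : ∏ x ∈ s, Function.update c j₀ c₀ x = ∏ x ∈ s, c x :=
        Finset.prod_congr rfl fun x hx => Function.update_of_ne (by rintro rfl; exact hj hx) _ _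
      rw [e, mul_comm, ← h8]
      exact hb'

end chain

section isog

lemma finite_closure {M : Type} [AddCommGroup M] {d : ℕ} (t : Fin d → M) {L : ℕ} (hL : 0 < L)
    (ht : ∀ j, L • t j = 0) : Finite (AddSubgroup.closure (Set.range t)) := by
  have h1 : ∀ z ∈ AddSubgroup.closure (Set.range t), L • z = 0 := by
    intro z hz
    have h2 : AddSubgroup.closure (Set.range t) ≤ (nsmulAddMonoidHom (α := M) L).ker := by
      rw [AddSubgroup.closure_le]
      rintro _ ⟨j, rfl⟩
      exact ht j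
    exact h2 hz
  refine AddCommGroup.finite_of_fg_isAddTorsion _ fun z => ?_
  rw [isOfFinAddOrder_iff_nsmul_eq_zero]
  exact ⟨L, hL, Subtype.ext (h1 z.1 z.2)⟩

variable {G : Type} [Group G] {ι : Type} [Fintype ι] {M : ι → Type} [∀ i, AddCommGroup (M i)]
  [∀ i, DistribMulAction G (M i)]

/-- for every `L > 0` the elements of `M` killed by `L` form a group generated by `d` elements -/
def TorsionRank (M : Type) [AddCommGroup M] (d : ℕ) : Prop :=
  ∀ L : ℕ, 0 < L → ∃ t : Fin d → M, (∀ j, L • t j = 0) ∧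
    ∀ x : M, L • x = 0 → x ∈ AddSubgroup.closure (Set.range t)

theorem transfer {d : ι → ℕ} (hd : ∀ i, TorsionRank (M i) (d i)) {κ : ι → Type} {A : Type} [AddCommGroup A]
    [DistribMulAction G A] (f : (∀ i, κ i → M i) →+ A)
    (hf : ∀ (g : G) x, f (g • x) = g • f x) (hs : Function.Surjective f) (hk : Finite f.ker) {P : A} {N : ℕ}
    (hN : 0 < N) (χ : G →* ZMod N) (hP : ∀ (g : G) (m : ℤ), (m : ZMod N) = χ g → g • P = m • P)
    (hP0 : addOrderOf P = N) :
    ∃ (Ψ : ∀ i, Fin (d i) → AddSubgroup (M i)) (q : ∀ i, Fin (d i) → M i) (c : ∀ i, Fin (d i) → ℕ),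
      (∀ i j, 0 < c i j ∧ Finite (Ψ i j) ∧ IsPoint χ (Ψ i j) (q i j) (c i j)) ∧ ∏ i, ∏ j, c i j = N := by
  classical
  obtain ⟨x, hx⟩ := hs P
  have hNP : N • P = 0 := by rw [← hP0, addOrderOf_nsmul_eq_zero]
  obtain ⟨L, hL, hLx⟩ : ∃ L : ℕ, 0 < L ∧ L • x = 0 := by
    have h1 : N • x ∈ f.ker := by
      rw [AddMonoidHom.mem_ker, map_nsmul, hx, hNP]
    have h2 : Nat.card f.ker • (⟨_, h1⟩ : f.ker) = 0 := card_nsmul_eq_zero'
    have h3 := congrArg Subtype.val h2
    refine ⟨Nat.card f.ker * N, Nat.mul_pos Nat.card_pos hN, ?_⟩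
    rw [mul_smul]
    exact h3
  choose t ht1 ht2 using fun i => hd i L hL
  obtain ⟨Ψ, q, c, h1, h2⟩ := chain (M := M) (J := Σ i, Fin (d i)) Sigma.fst (fun j => t j.1 j.2) χ hN
    (fun j => ht1 j.1 j.2) Finset.univ
  refine ⟨fun i j => Ψ ⟨i, j⟩, fun i j => q ⟨i, j⟩, fun i j => c ⟨i, j⟩, fun i j => ?_, ?_⟩
  · obtain ⟨a1, a2, a3⟩ := h1 ⟨i, j⟩
    refine ⟨a1, ?_, a3⟩
    have := finite_closure (t i) hL (ht1 i)
    exact Finite.Set.subset (AddSubgroup.closure (Set.range (t i)) : Set (M i)) fun z hz => ht2 i z (a2 z hz)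
  · obtain ⟨y, hy, hay⟩ := (h2 _).2 dvd_rfl
    have h3 : act (∀ i, κ i → M i) y x = 0 := by
      funext i k
      let e : (∀ i, κ i → M i) →+ M i := (Pi.evalAddMonoidHom (fun _ : κ i => M i) k).comp
        (Pi.evalAddMonoidHom (fun i => κ i → M i) i)
      have h4 : e (act (∀ i, κ i → M i) y x) = act (M i) y (e x) := act_map e (fun _ _ => rfl) y x
      have h5 : e x ∈ AddSubgroup.closure (Set.range (t i)) := by
        refine ht2 i _ ?_
        rw [← map_nsmul, hLx, map_zero]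
      have h6 : AddSubgroup.closure (Set.range (t i)) ≤ (act (M i) y : M i →+ M i).ker := by
        rw [AddSubgroup.closure_le]
        rintro _ ⟨j, rfl⟩
        exact hy ⟨i, j⟩ (Finset.mem_univ _)
      have h7 : act (M i) y (e x) = 0 := h6 h5
      rw [h7] at h4
      exact h4
    have h4 := act_map f hf y x
    rw [h3, map_zero, hx, act_char hNP hP y _ hay] at h4
    have h5 : (N : ℤ) ∣ ((∏ j, c j : ℕ) : ℤ) := by
      rw [← hP0, addOrderOf_dvd_iff_zsmul_eq_zero]
      exact h4.symm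
    have h6 : ∏ i, ∏ j, c ⟨i, j⟩ = ∏ j, c j := by
      rw [← Finset.univ_sigma_univ, Finset.prod_sigma]
    have h7 : ((∏ j, c j : ℕ) : ℤ) ∣ (N : ℤ) := (h2 N).1 ⟨0, AddSubgroup.zero_mem _, by rw [map_zero]; simp⟩
    rw [h6]
    exact Nat.dvd_antisymm (by exact_mod_cast h7) (by exact_mod_cast h5)

end isog

end Pool.Agent.Helper91.DF
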